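import Pool.Agent.Helper60.BFT.Goals

/-!
# Running sums: general facts for the pathwise assembly
-/

set_option autoImplicit false

open Finset Filter Topology

namespace Pool.Agent.Helper88.BFT

open Pool.Agent.Helper60.BFT

/-- the second component of `run` is bounded by `1` -/
theorem run_snd_abs (s Y : ℕ → ℝ) (hs : ∀ n, |s n| ≤ 1) (hY : ∀ n, Y n = 0 ∨ Y n = 1) (n : ℕ) :
    |(run s Y n).2| ≤ 1 := by
  induction n with
  | zero => simp [run]
  | succ n ih =>
    rcases hY n with h | h
    · have e : (run s Y (n + 1)).2 = (run s Y n).2 := by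
        simp [run, h]
      rw [e]; exact ih
    · have e : (run s Y (n + 1)).2 = s n := by
        simp [run, h]
      rw [e]; exact hs n

/-- each step changes the first component by at most `1` -/
theorem run_fst_step (s Y : ℕ → ℝ) (hs : ∀ n, |s n| ≤ 1) (hY : ∀ n, Y n = 0 ∨ Y n = 1) (n m : ℕ) :
    |(run s Y (n + m)).1 - (run s Y n).1| ≤ m := by
  induction m with
  | zero => simp
  | succ m ih =>
    have e : (run s Y (n + (m + 1))).1
        = (run s Y (n + m)).1 + Y (n + m) * s (n + m) * (run s Y (n + m)).2 := rfl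
    have h1 : |Y (n + m) * s (n + m) * (run s Y (n + m)).2| ≤ 1 := by
      rw [abs_mul, abs_mul]
      have a1 : |Y (n + m)| ≤ 1 := by
        rcases hY (n + m) with h | h <;> simp [h]
      have a2 := hs (n + m)
      have a3 := run_snd_abs s Y hs hY (n + m)
      exact mul_le_one₀ (mul_le_one₀ a1 (abs_nonneg _) a2) (abs_nonneg _) a3
    rw [e]
    have h2 := abs_le.1 h1
    have h3 := abs_le.1 ih
    rw [abs_le]
    push_cast
    constructor <;> linarith [h2.1, h2.2, h3.1, h3.2]

/-- restarting the recursion -/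
theorem run_restart (s Y : ℕ → ℝ) (hs : ∀ n, |s n| ≤ 1) (hY : ∀ n, Y n = 0 ∨ Y n = 1) (n m : ℕ) :
    |(run s Y (n + m)).1 - (run s Y n).1
        - (run (fun i => s (n + i)) (fun i => Y (n + i)) m).1|
      + |(run s Y (n + m)).2 - (run (fun i => s (n + i)) (fun i => Y (n + i)) m).2| ≤ 1 := by
  induction m with
  | zero =>
    have := run_snd_abs s Y hs hY n
    simpa [run] using this
  | succ m ih =>
    have e1 : (run s Y (n + (m + 1))).1
        = (run s Y (n + m)).1 + Y (n + m) * s (n + m) * (run s Y (n + m)).2 := rfl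
    have e2 : (run s Y (n + (m + 1))).2
        = Y (n + m) * s (n + m) + (1 - Y (n + m)) * (run s Y (n + m)).2 := rfl
    have e3 : (run (fun i => s (n + i)) (fun i => Y (n + i)) (m + 1)).1
        = (run (fun i => s (n + i)) (fun i => Y (n + i)) m).1
          + Y (n + m) * s (n + m) * (run (fun i => s (n + i)) (fun i => Y (n + i)) m).2 := rfl
    have e4 : (run (fun i => s (n + i)) (fun i => Y (n + i)) (m + 1)).2
        = Y (n + m) * s (n + m)
          + (1 - Y (n + m)) * (run (fun i => s (n + i)) (fun i => Y (n + i)) m).2 := rfl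
    rw [e1, e2, e3, e4]
    set A := (run s Y (n + m)).1
    set B := (run s Y (n + m)).2
    set C := (run (fun i => s (n + i)) (fun i => Y (n + i)) m).1
    set D := (run (fun i => s (n + i)) (fun i => Y (n + i)) m).2
    set E := (run s Y n).1
    rcases hY (n + m) with h | h
    · rw [h]
      have r1 : A + 0 * s (n + m) * B - E - (C + 0 * s (n + m) * D) = A - E - C := by ring
      have r2 : 0 * s (n + m) + (1 - 0) * B - (0 * s (n + m) + (1 - 0) * D) = B - D := by ring
      rw [r1, r2]
      exact ih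
    · rw [h]
      have r1 : A + 1 * s (n + m) * B - E - (C + 1 * s (n + m) * D)
          = (A - E - C) + s (n + m) * (B - D) := by ring
      have r2 : 1 * s (n + m) + (1 - 1) * B - (1 * s (n + m) + (1 - 1) * D) = 0 := by ring
      rw [r1, r2, abs_zero, add_zero]
      refine (abs_add_le _ _).trans ?_
      rw [abs_mul]
      have a2 := hs (n + m)
      have : |s (n + m)| * |B - D| ≤ 1 * |B - D| := mul_le_mul_of_nonneg_right a2 (abs_nonneg _)
      linarith

/-- sums over blocks -/
theorem sum_blocks (K : ℕ) (hK : 1 ≤ K) (F : ℕ → ℝ) (R : ℕ) :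
    ∑ n ∈ range (R ^ K), F n = ∑ r ∈ range R, ∑ i ∈ range (len K r), F (r ^ K + i) := by
  induction R with
  | zero => simp [zero_pow (by omega : K ≠ 0)]
  | succ R ih =>
    have e : (R + 1) ^ K = R ^ K + len K R := by
      have : R ^ K ≤ (R + 1) ^ K := Nat.pow_le_pow_left (by omega) K
      unfold len
      omega
    rw [Finset.sum_range_succ, ← ih, e, Finset.sum_range_add]

/-- the running sum over blocks -/
theorem run_blocks (K : ℕ) (hK : 1 ≤ K) (s Y : ℕ → ℝ) (hs : ∀ n, |s n| ≤ 1)
    (hY : ∀ n, Y n = 0 ∨ Y n = 1) (R : ℕ) :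
    |(run s Y (R ^ K)).1
      - ∑ r ∈ range R, (run (fun i => s (r ^ K + i)) (fun i => Y (r ^ K + i)) (len K r)).1| ≤ R := by
  induction R with
  | zero => simp [zero_pow (by omega : K ≠ 0), run]
  | succ R ih =>
    have e : (R + 1) ^ K = R ^ K + len K R := by
      have : R ^ K ≤ (R + 1) ^ K := Nat.pow_le_pow_left (by omega) K
      unfold len
      omega
    rw [Finset.sum_range_succ, e]
    have h1 := run_restart s Y hs hY (R ^ K) (len K R)
    have h2 : |(run s Y (R ^ K + len K R)).1 - (run s Y (R ^ K)).1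
        - (run (fun i => s (R ^ K + i)) (fun i => Y (R ^ K + i)) (len K R)).1| ≤ 1 := by
      have := abs_nonneg ((run s Y (R ^ K + len K R)).2
        - (run (fun i => s (R ^ K + i)) (fun i => Y (R ^ K + i)) (len K R)).2)
      linarith
    have h3 := abs_le.1 h2
    have h4 := abs_le.1 ih
    rw [abs_le]
    push_cast
    constructor <;> linarith [h3.1, h3.2, h4.1, h4.2]

/-- the integer root -/
theorem root_pow_le (K n : ℕ) (hK : 1 ≤ K) : (root K n) ^ K ≤ n := by
  unfold root
  have := Nat.findGreatest_spec (P := fun r => r ^ K ≤ n) (m := 0) (n := n) (Nat.zero_le _)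
    (by simp [zero_pow (by omega : K ≠ 0)])
  exact this

theorem lt_root_pow (K n : ℕ) (hK : 1 ≤ K) : n < (root K n + 1) ^ K := by
  by_contra hcon
  push Not at hcon
  have h1 : root K n + 1 ≤ n := by
    refine le_trans ?_ hcon
    calc root K n + 1 = (root K n + 1) ^ 1 := (pow_one _).symm
      _ ≤ (root K n + 1) ^ K := Nat.pow_le_pow_right (by omega) hK
  have h2 := Nat.le_findGreatest (P := fun r => r ^ K ≤ n) h1 hcon
  have h3 : Nat.findGreatest (fun r => r ^ K ≤ n) n = root K n := rfl
  omega

theorem root_tendsto (K : ℕ) (hK : 1 ≤ K) : Tendsto (fun n => root K n) atTop atTop := by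
  rw [tendsto_atTop]
  intro R
  filter_upwards [eventually_ge_atTop (R ^ K)] with n hn
  have h1 : R ≤ n := by
    refine le_trans ?_ hn
    rcases Nat.eq_zero_or_pos R with h | h
    · omega
    · calc R = R ^ 1 := (pow_one _).symm
        _ ≤ R ^ K := Nat.pow_le_pow_right h hK
  exact Nat.le_findGreatest h1 hn

/-- eventual inequalities can be summed up to a constant -/
theorem sum_ev_le (f g : ℕ → ℝ) (h : ∀ᶠ r : ℕ in atTop, f r ≤ g r) :
    ∃ C : ℝ, 0 ≤ C ∧ ∀ R, ∑ r ∈ range R, f r ≤ ∑ r ∈ range R, g r + C := by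
  obtain ⟨r0, hr0⟩ := eventually_atTop.1 h
  refine ⟨∑ r ∈ range r0, |f r - g r|, Finset.sum_nonneg (fun _ _ => abs_nonneg _), ?_⟩
  intro R
  have h1 : ∑ r ∈ range R, f r - ∑ r ∈ range R, g r
      ≤ ∑ r ∈ range R, if r < r0 then |f r - g r| else 0 := by
    rw [← Finset.sum_sub_distrib]
    apply Finset.sum_le_sum
    intro r _
    split_ifs with hr
    · exact le_abs_self _
    · push Not at hr
      have := hr0 r hr
      linarith
  have h2 : (∑ r ∈ range R, if r < r0 then |f r - g r| else 0) ≤ ∑ r ∈ range r0, |f r - g r| := by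
    rw [← Finset.sum_filter]
    apply Finset.sum_le_sum_of_subset_of_nonneg
    · intro r hr
      rw [Finset.mem_filter] at hr
      exact mem_range.2 hr.2
    · intro _ _ _
      exact abs_nonneg _
  linarith

end Pool.Agent.Helper88.BFT
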