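import Pool.Agent.Helper88.BFT.PthEnum

/-!
# The pathwise assembly
-/

set_option autoImplicit false

open Finset Filter Topology

namespace Pool.Agent.Helper88.BFT

open Pool.Agent.Helper60.BFT

section Block

variable (K : ℕ) (Z : ℕ → ℕ) (β : ℕ → ℕ → (ℕ → ℕ) → ℕ) (a : ℕ → ℕ)

theorem YP_zero_one (n : ℕ) : YP K Z β a n = 0 ∨ YP K Z β a n = 1 := by
  unfold YP
  split_ifs
  · right; rfl
  · left; rfl

theorem YF_zero_one (r n : ℕ) : YF K Z β r a n = 0 ∨ YF K Z β r a n = 1 := by
  unfold YF
  split_ifs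
  · right; rfl
  · left; rfl

theorem Rem_nonneg (r : ℕ) : 0 ≤ Rem K Z β r a := by
  unfold Rem
  exact Finset.sum_nonneg (fun _ _ => abs_nonneg _)

theorem block0 (r : ℕ) :
    T0 K Z β r a ≤ ∑ i ∈ range (len K r), YP K Z β a (r ^ K + i) + Rem K Z β r a := by
  unfold T0 Rem
  rw [← Finset.sum_add_distrib]
  apply Finset.sum_le_sum
  intro i _
  have := le_abs_self (YF K Z β r a (r ^ K + i) - YP K Z β a (r ^ K + i))
  linarith

theorem block1 (r : ℕ) :
    |∑ i ∈ range (len K r), YP K Z β a (r ^ K + i) * chi (r ^ K + i)|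
      ≤ |T1 K Z β r a| + Rem K Z β r a := by
  have h : |∑ i ∈ range (len K r), YP K Z β a (r ^ K + i) * chi (r ^ K + i) - T1 K Z β r a|
      ≤ Rem K Z β r a := by
    unfold T1 Rem
    rw [← Finset.sum_sub_distrib]
    refine (Finset.abs_sum_le_sum_abs _ _).trans ?_
    apply Finset.sum_le_sum
    intro i _
    have e : YP K Z β a (r ^ K + i) * chi (r ^ K + i)
        - chi (r ^ K + i) * YF K Z β r a (r ^ K + i)
        = - (chi (r ^ K + i) * (YF K Z β r a (r ^ K + i) - YP K Z β a (r ^ K + i))) := by ring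
    rw [e, abs_neg, abs_mul, chi_abs, one_mul]
  have h1 := abs_le.1 h
  have h2 := abs_le.1 (le_refl |T1 K Z β r a|)
  rw [abs_le]
  constructor <;> linarith [h1.1, h1.2, h2.1, h2.2]

theorem block2 (hL : LIPG) (r : ℕ) :
    |(run (fun i => chi (r ^ K + i)) (fun i => YP K Z β a (r ^ K + i)) (len K r)).1|
      ≤ |T2 K Z β r a| + 3 * Rem K Z β r a := by
  have h := hL (fun i => chi (r ^ K + i)) (fun i => YF K Z β r a (r ^ K + i))
    (fun i => YP K Z β a (r ^ K + i)) (fun n => (chi_abs _).le)
    (fun n => YF_zero_one K Z β a r _) (fun n => YP_zero_one K Z β a _) (len K r)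
  have e1 : (run (fun i => chi (r ^ K + i)) (fun i => YF K Z β r a (r ^ K + i)) (len K r)).1
      = T2 K Z β r a := rfl
  have e2 : ∑ i ∈ range (len K r), |YF K Z β r a (r ^ K + i) - YP K Z β a (r ^ K + i)|
      = Rem K Z β r a := rfl
  rw [e1, e2] at h
  have h1 := abs_le.1 h
  have h2 := abs_le.1 (le_refl |T2 K Z β r a|)
  rw [abs_le]
  constructor <;> linarith [h1.1, h1.2, h2.1, h2.2]

end Block

theorem pth (hL : LIPG) : PTHG := by
  intro k K hK4 hkK Z hZ β a ε hε0 hε1 hEE hD c d hc hd
  have hK : 1 ≤ K := by omega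
  set Sig : ℕ → ℝ := fun R => ∑ r ∈ range R, mT K Z r with hSig
  set DD : ℕ → ℝ := fun R => ∑ r ∈ range R, Dev K Z β r a with hDD
  -- the three blockwise inequalities
  have hA : ∀ᶠ r : ℕ in atTop, (1 - ε) * mT K Z r
      ≤ ∑ i ∈ range (len K r), YP K Z β a (r ^ K + i) + Dev K Z β r a := by
    filter_upwards [hEE] with r hr
    have h1 := (abs_le.1 hr.1).1
    have h2 := block0 K Z β a r
    have h3 : Rem K Z β r a + |T0 K Z β r a - EE K Z (T0 K Z β r) r a| ≤ Dev K Z β r a := by
      unfold Dev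
      have := abs_nonneg (T1 K Z β r a - EE K Z (T1 K Z β r) r a)
      have := abs_nonneg (T2 K Z β r a - EE K Z (T2 K Z β r) r a)
      linarith
    have h4 := neg_abs_le (T0 K Z β r a - EE K Z (T0 K Z β r) r a)
    linarith
  have hB : ∀ᶠ r : ℕ in atTop,
      |∑ i ∈ range (len K r), YP K Z β a (r ^ K + i) * chi (r ^ K + i)|
        ≤ ε * mT K Z r + Dev K Z β r a := by
    filter_upwards [hEE] with r hr
    have h1 := hr.2.1
    have h2 := block1 K Z β a r
    have h3 : Rem K Z β r a + |T1 K Z β r a - EE K Z (T1 K Z β r) r a| ≤ Dev K Z β r a := by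
      unfold Dev
      have := abs_nonneg (T0 K Z β r a - EE K Z (T0 K Z β r) r a)
      have := abs_nonneg (T2 K Z β r a - EE K Z (T2 K Z β r) r a)
      linarith
    have h4 : |T1 K Z β r a| ≤ |T1 K Z β r a - EE K Z (T1 K Z β r) r a|
        + |EE K Z (T1 K Z β r) r a| := by
      have := abs_add_le (T1 K Z β r a - EE K Z (T1 K Z β r) r a) (EE K Z (T1 K Z β r) r a)
      rwa [sub_add_cancel] at this
    linarith
  have hC : ∀ᶠ r : ℕ in atTop,
      |(run (fun i => chi (r ^ K + i)) (fun i => YP K Z β a (r ^ K + i)) (len K r)).1|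
        ≤ ε * mT K Z r + 3 * Dev K Z β r a := by
    filter_upwards [hEE] with r hr
    have h1 := hr.2.2
    have h2 := block2 K Z β a hL r
    have h3 : 3 * Rem K Z β r a + |T2 K Z β r a - EE K Z (T2 K Z β r) r a|
        ≤ 3 * Dev K Z β r a := by
      unfold Dev
      have := abs_nonneg (T0 K Z β r a - EE K Z (T0 K Z β r) r a)
      have := abs_nonneg (T1 K Z β r a - EE K Z (T1 K Z β r) r a)
      have := abs_nonneg (T2 K Z β r a - EE K Z (T2 K Z β r) r a)
      linarith
    have h4 : |T2 K Z β r a| ≤ |T2 K Z β r a - EE K Z (T2 K Z β r) r a|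
        + |EE K Z (T2 K Z β r) r a| := by
      have := abs_add_le (T2 K Z β r a - EE K Z (T2 K Z β r) r a) (EE K Z (T2 K Z β r) r a)
      rwa [sub_add_cancel] at this
    linarith
  obtain ⟨C0, hC0, hA'⟩ := sum_ev_le _ _ hA
  obtain ⟨C1, hC1, hB'⟩ := sum_ev_le _ _ hB
  obtain ⟨C2, hC2, hC'⟩ := sum_ev_le _ _ hC
  have hA2 : ∀ R, (1 - ε) * Sig R
      ≤ ∑ n ∈ range (R ^ K), YP K Z β a n + DD R + C0 := by
    intro R
    have := hA' R
    rw [← Finset.mul_sum, Finset.sum_add_distrib, ← sum_blocks K hK] at this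
    exact this
  have hB2 : ∀ R, |∑ n ∈ range (R ^ K), YP K Z β a n * chi n| ≤ ε * Sig R + DD R + C1 := by
    intro R
    have := hB' R
    rw [Finset.sum_add_distrib, ← Finset.mul_sum] at this
    rw [sum_blocks K hK]
    exact (Finset.abs_sum_le_sum_abs _ _).trans this
  have hC2' : ∀ R, |(run chi (YP K Z β a) (R ^ K)).1| ≤ ε * Sig R + 3 * DD R + C2 + R := by
    intro R
    have h1 := hC' R
    rw [Finset.sum_add_distrib, ← Finset.mul_sum, ← Finset.mul_sum] at h1
    have h2 := run_blocks K hK chi (YP K Z β a) (fun n => (chi_abs n).le)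
      (YP_zero_one K Z β a) R
    have h3 := Finset.abs_sum_le_sum_abs
      (fun r => (run (fun i => chi (r ^ K + i)) (fun i => YP K Z β a (r ^ K + i)) (len K r)).1)
      (range R)
    have h4 := abs_le.1 (h3.trans h1)
    have h5 := abs_le.1 h2
    rw [abs_le]
    constructor <;> linarith [h4.1, h4.2, h5.1, h5.2]
  -- for all large `x`
  have hη : 0 < ε / 20 := by positivity
  have hev : ∀ᶠ x : ℕ in atTop,
      (1 - 2 * ε) * Sig (root K x) ≤ ∑ n ∈ range (x + 1), YP K Z β a n ∧
      |∑ n ∈ range (x + 1), YP K Z β a n * chi n| ≤ 2 * ε * Sig (root K x) ∧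
      |(run chi (YP K Z β a) (x + 1)).1| ≤ 2 * ε * Sig (root K x) ∧
      3 ≤ ε * Sig (root K x) ∧ (root K x : ℝ) ≤ (ε / 20) * Sig (root K x) := by
    have hR := root_tendsto K hK
    filter_upwards [hR.eventually (hD (ε / 20) hη),
      hR.eventually (eventually_ge_atTop (⌈C0 + C1 + C2⌉₊ + 3))] with x hx1 hx2
    obtain ⟨g1, g2, g3⟩ := hx1
    set R := root K x with hRdef
    have g1' : DD R ≤ ε / 20 * Sig R := g1
    have g2' : (R : ℝ) ≤ ε / 20 * Sig R := g2
    have g3' : (len K R : ℝ) ≤ ε / 20 * Sig R := g3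
    have hx3 : C0 + C1 + C2 + 3 ≤ R := by
      have e1 : ((⌈C0 + C1 + C2⌉₊ : ℕ) : ℝ) + 3 ≤ R := by exact_mod_cast hx2
      have e2 := Nat.le_ceil (C0 + C1 + C2)
      linarith
    have hlo : R ^ K ≤ x := root_pow_le K x hK
    have hhi : x < (R + 1) ^ K := lt_root_pow K x hK
    obtain ⟨m, hm⟩ : ∃ m, x + 1 = R ^ K + m := ⟨x + 1 - R ^ K, by omega⟩
    have hmlen : m ≤ len K R := by
      unfold len
      omega
    have hmlen' : (m : ℝ) ≤ len K R := by exact_mod_cast hmlen
    have hSigpos : 0 ≤ Sig R := by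
      have : (0 : ℝ) ≤ R := Nat.cast_nonneg _
      by_contra hcon
      push Not at hcon
      nlinarith
    refine ⟨?_, ?_, ?_, ?_, g2'⟩
    · have e1 : ∑ n ∈ range (R ^ K), YP K Z β a n ≤ ∑ n ∈ range (x + 1), YP K Z β a n := by
        apply Finset.sum_le_sum_of_subset_of_nonneg
        · intro n hn
          rw [mem_range] at hn ⊢
          omega
        · intro n _ _
          rcases YP_zero_one K Z β a n with h | h <;> simp [h]
      have e2 := hA2 R
      linarith
    · rw [hm, Finset.sum_range_add]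
      have e1 := hB2 R
      have e2 : |∑ i ∈ range m, YP K Z β a (R ^ K + i) * chi (R ^ K + i)| ≤ m := by
        refine (Finset.abs_sum_le_sum_abs _ _).trans ?_
        calc ∑ i ∈ range m, |YP K Z β a (R ^ K + i) * chi (R ^ K + i)|
            ≤ ∑ i ∈ range m, (1 : ℝ) := by
              apply Finset.sum_le_sum
              intro i _
              rw [abs_mul, chi_abs, mul_one]
              rcases YP_zero_one K Z β a (R ^ K + i) with h | h <;> simp [h]
          _ = m := by simp
      refine (abs_add_le _ _).trans ?_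
      linarith
    · have e1 := hC2' R
      have e2 := run_fst_step chi (YP K Z β a) (fun n => (chi_abs n).le) (YP_zero_one K Z β a)
        (R ^ K) m
      rw [← hm] at e2
      have e3 := abs_le.1 e1
      have e4 := abs_le.1 e2
      rw [abs_le]
      constructor <;> linarith [e3.1, e3.2, e4.1, e4.2]
    · linarith
  -- the set is infinite
  have hinf : (Set.ofPred (Pair K Z β a)).Infinite := by
    intro hfin
    classical
    have hbound : ∀ N, ∑ n ∈ range N, YP K Z β a n ≤ (hfin.toFinset.card : ℝ) := by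
      intro N
      have e1 : ∑ n ∈ range N, YP K Z β a n
          = (((range N).filter (Pair K Z β a)).card : ℝ) := by
        rw [Finset.card_filter]
        push_cast
        apply Finset.sum_congr rfl
        intro n _
        unfold YP
        split_ifs <;> rfl
      rw [e1]
      have e2 : ((range N).filter (Pair K Z β a)) ⊆ hfin.toFinset := by
        intro n hn
        rw [Finset.mem_filter] at hn
        rw [Set.Finite.mem_toFinset]
        exact hn.2
      exact_mod_cast Finset.card_le_card e2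
    have hR := root_tendsto K hK
    obtain ⟨x, ⟨h1, -, -, -, h5⟩, h6⟩ := (hev.and
      (hR.eventually (eventually_ge_atTop (hfin.toFinset.card + 1)))).exists
    have h7 := hbound (x + 1)
    have h8 : (hfin.toFinset.card : ℝ) + 1 ≤ root K x := by exact_mod_cast h6
    have h9 : Sig (root K x) / 2 ≤ (1 - 2 * ε) * Sig (root K x) := by
      have : 0 ≤ Sig (root K x) := by
        by_contra hcon
        push Not at hcon
        have : (0 : ℝ) ≤ root K x := Nat.cast_nonneg _
        nlinarith
      nlinarith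
    have h10 : (root K x : ℝ) ≤ Sig (root K x) / 2 := by
      have : 0 ≤ Sig (root K x) := by
        by_contra hcon
        push Not at hcon
        have : (0 : ℝ) ≤ root K x := Nat.cast_nonneg _
        nlinarith
      nlinarith
    linarith
  filter_upwards [hev] with x hx
  obtain ⟨h1, h2, h3, h4, -⟩ := hx
  exact delta_bound hinf (fun n hn => hn.1) x hε0 hε1 h4 h1 h2 h3 hc hd

end Pool.Agent.Helper88.BFT
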