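import Pool.Agent.Helper88.BFT.PthRun

/-!
# The enumeration of an infinite set of odd numbers
-/

set_option autoImplicit false

open Finset Filter Topology

namespace Pool.Agent.Helper88.BFT

open Pool.Agent.Helper60.BFT

variable {P : ℕ → Prop}

/-- the sign of an element of the enumeration -/
noncomputable def gg (P : ℕ → Prop) (i : ℕ) : ℝ := chi (Nat.nth P i)

theorem chi_abs (n : ℕ) : |chi n| = 1 := by
  unfold chi
  split_ifs <;> simp

theorem gg_abs (P : ℕ → Prop) (i : ℕ) : |gg P i| = 1 := chi_abs _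

theorem ind_mod {n : ℕ} (hn : n % 2 = 1) {a : ℕ} (ha : a = 1 ∨ a = 3) :
    (if n % 4 = a then (1 : ℝ) else 0)
      = (1 + (if a = 1 then (1 : ℝ) else -1) * chi n) / 2 := by
  have h : n % 4 = 1 ∨ n % 4 = 3 := by omega
  unfold chi
  rcases h with h | h <;> rcases ha with rfl | rfl <;> simp [h]

open Classical in
theorem sum_nth (hinf : (Set.ofPred P).Infinite) (N : ℕ) (F : ℕ → ℝ) :
    ∑ i ∈ range (Nat.count P N), F (Nat.nth P i)
      = ∑ n ∈ range N, (if P n then 1 else 0) * F n := by
  have h1 : ∑ i ∈ range (Nat.count P N), F (Nat.nth P i)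
      = ∑ n ∈ (range N).filter P, F n := by
    apply Finset.sum_nbij (fun i => Nat.nth P i)
    · intro i hi
      rw [mem_range] at hi
      rw [Finset.mem_filter, mem_range]
      refine ⟨?_, Nat.nth_mem_of_infinite hinf i⟩
      by_contra hcon
      push Not at hcon
      have := Nat.count_monotone P hcon
      rw [Nat.count_nth_of_infinite hinf] at this
      omega
    · intro i _ j _ hij
      exact (Nat.nth_strictMono hinf).injective hij
    · intro n hn
      rw [Finset.mem_coe, Finset.mem_filter, mem_range] at hn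
      refine ⟨Nat.count P n, ?_, Nat.nth_count hn.2⟩
      rw [Finset.mem_coe, mem_range]
      exact Nat.count_strict_mono hn.2 hn.1
    · intro i _
      rfl
  rw [h1, Finset.sum_filter]
  apply Finset.sum_congr rfl
  intro n _
  split_ifs <;> simp

open Classical in
/-- the running sum and the enumeration -/
theorem run_nth (P : ℕ → Prop) (n : ℕ) :
    (run chi (fun n => if P n then 1 else 0) n).1
        = ∑ i ∈ range (Nat.count P n - 1), gg P i * gg P (i + 1) ∧
      (Nat.count P n = 0 → (run chi (fun n => if P n then 1 else 0) n).2 = 0) ∧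
      (∀ c, Nat.count P n = c + 1 →
        (run chi (fun n => if P n then 1 else 0) n).2 = gg P c) := by
  induction n with
  | zero => simp [run]
  | succ n ih =>
    obtain ⟨i1, i2, i3⟩ := ih
    by_cases hn : P n
    · have hc : Nat.count P (n + 1) = Nat.count P n + 1 := by
        rw [Nat.count_succ]
        simp [hn]
      have hnth : Nat.nth P (Nat.count P n) = n := Nat.nth_count hn
      have hg : gg P (Nat.count P n) = chi n := by
        unfold gg
        rw [hnth]
      have e1 : (run chi (fun n => if P n then 1 else 0) (n + 1)).1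
          = (run chi (fun n => if P n then 1 else 0) n).1
            + chi n * (run chi (fun n => if P n then 1 else 0) n).2 := by
        simp only [run]
        rw [if_pos hn]
        ring
      have e2 : (run chi (fun n => if P n then 1 else 0) (n + 1)).2 = chi n := by
        simp only [run]
        rw [if_pos hn]
        ring
      rw [e1, e2, hc]
      refine ⟨?_, by omega, ?_⟩
      · rcases Nat.eq_zero_or_pos (Nat.count P n) with h0 | h0
        · rw [i1, i2 h0, h0]
          simp
        · obtain ⟨c, hcc⟩ : ∃ c, Nat.count P n = c + 1 := ⟨Nat.count P n - 1, by omega⟩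
          rw [i1, i3 c hcc, ← hg, hcc]
          simp only [Nat.add_sub_cancel]
          rw [Finset.sum_range_succ]
          ring
      · intro c hcc
        have : c = Nat.count P n := by omega
        rw [this, hg]
    · have hc : Nat.count P (n + 1) = Nat.count P n := by
        rw [Nat.count_succ]
        simp [hn]
      have e1 : (run chi (fun n => if P n then 1 else 0) (n + 1)).1
          = (run chi (fun n => if P n then 1 else 0) n).1 := by
        simp only [run]
        rw [if_neg hn]
        ring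
      have e2 : (run chi (fun n => if P n then 1 else 0) (n + 1)).2
          = (run chi (fun n => if P n then 1 else 0) n).2 := by
        simp only [run]
        rw [if_neg hn]
        ring
      rw [e1, e2, hc]
      exact ⟨i1, i2, i3⟩

open Classical in
theorem nth_le_iff (hinf : (Set.ofPred P).Infinite) (x i : ℕ) :
    Nat.nth P i ≤ x ↔ i < Nat.count P (x + 1) := by
  constructor
  · intro h
    have h1 := Nat.count_strict_mono (p := P) (Nat.nth_mem_of_infinite hinf i)
      (Nat.lt_succ_of_le h)
    rwa [Nat.count_nth_of_infinite hinf] at h1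
  · intro h
    by_contra hcon
    push Not at hcon
    have := Nat.count_monotone P (Nat.succ_le_of_lt hcon)
    rw [Nat.count_nth_of_infinite hinf] at this
    exact absurd h (by simpa using this)

open Classical in
theorem count₁_eq (hinf : (Set.ofPred P).Infinite) (hodd : ∀ n, P n → n % 2 = 1)
    (x : ℕ) {a : ℕ} (ha : a = 1 ∨ a = 3) :
    (count₁ P x a : ℝ)
      = ∑ i ∈ range (Nat.count P (x + 1)),
          (1 + (if a = 1 then (1 : ℝ) else -1) * gg P i) / 2 := by
  unfold count₁
  have h1 : {i : ℕ | Nat.nth P i ≤ x ∧ Nat.nth P i % 4 = a}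
      = ↑((range (Nat.count P (x + 1))).filter
          (fun i => Nat.nth P i % 4 = a)) := by
    ext i
    simp only [Set.mem_ofPred_eq, Finset.coe_filter, mem_range]
    rw [nth_le_iff hinf]
  rw [h1, Set.ncard_coe_finset, Finset.card_filter]
  push_cast
  apply Finset.sum_congr rfl
  intro i _
  rw [ind_mod (hodd _ (Nat.nth_mem_of_infinite hinf i)) ha]
  rfl

open Classical in
theorem count₂_eq (hinf : (Set.ofPred P).Infinite) (hodd : ∀ n, P n → n % 2 = 1)
    (x : ℕ) {a b : ℕ} (ha : a = 1 ∨ a = 3) (hb : b = 1 ∨ b = 3) :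
    (count₂ P x a b : ℝ)
      = ∑ i ∈ range (Nat.count P (x + 1)),
          ((1 + (if a = 1 then (1 : ℝ) else -1) * gg P i) / 2) *
          ((1 + (if b = 1 then (1 : ℝ) else -1) * gg P (i + 1)) / 2) := by
  unfold count₂
  have h1 : {i : ℕ | Nat.nth P i ≤ x ∧ Nat.nth P i % 4 = a ∧
      Nat.nth P (i + 1) % 4 = b}
      = ↑((range (Nat.count P (x + 1))).filter
          (fun i => Nat.nth P i % 4 = a ∧ Nat.nth P (i + 1) % 4 = b)) := by
    ext i
    simp only [Set.mem_ofPred_eq, Finset.coe_filter, mem_range]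
    rw [nth_le_iff hinf]
  rw [h1, Set.ncard_coe_finset, Finset.card_filter]
  push_cast
  apply Finset.sum_congr rfl
  intro i _
  have e : (if Nat.nth P i % 4 = a ∧ Nat.nth P (i + 1) % 4 = b
      then (1 : ℝ) else 0)
      = (if Nat.nth P i % 4 = a then (1 : ℝ) else 0)
        * (if Nat.nth P (i + 1) % 4 = b then (1 : ℝ) else 0) := by
    by_cases h2 : Nat.nth P i % 4 = a <;>
      by_cases h3 : Nat.nth P (i + 1) % 4 = b <;> simp [h2, h3]
  rw [e, ind_mod (hodd _ (Nat.nth_mem_of_infinite hinf i)) ha,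
    ind_mod (hodd _ (Nat.nth_mem_of_infinite hinf (i + 1))) hb]
  rfl

open Classical in
theorem delta_bound (hinf : (Set.ofPred P).Infinite) (hodd : ∀ n, P n → n % 2 = 1)
    (x : ℕ) {ε W : ℝ} (hε0 : 0 < ε) (hε : ε ≤ 1 / 100)
    (hW : 3 ≤ ε * W)
    (hM : (1 - 2 * ε) * W ≤ ∑ n ∈ range (x + 1), (if P n then (1 : ℝ) else 0))
    (h1 : |∑ n ∈ range (x + 1), (if P n then (1 : ℝ) else 0) * chi n| ≤ 2 * ε * W)
    (h2 : |(run chi (fun n => if P n then 1 else 0) (x + 1)).1| ≤ 2 * ε * W)
    {a b : ℕ} (ha : a = 1 ∨ a = 3) (hb : b = 1 ∨ b = 3) :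
    |delta P x a b - 1 / 2| ≤ 20 * ε := by
  set M := Nat.count P (x + 1) with hMdef
  set S1 := ∑ i ∈ range M, gg P i with hS1
  set S2 := ∑ i ∈ range M, gg P i * gg P (i + 1) with hS2
  have hWpos : 0 < W := by
    by_contra hcon
    push Not at hcon
    nlinarith
  -- translate the sums
  have hMsum : (M : ℝ) = ∑ n ∈ range (x + 1), (if P n then (1 : ℝ) else 0) := by
    have := sum_nth hinf (x + 1) (fun _ => (1 : ℝ))
    simp only [Finset.sum_const, Finset.card_range, nsmul_eq_mul, mul_one] at this
    exact this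
  have hS1sum : S1 = ∑ n ∈ range (x + 1), (if P n then (1 : ℝ) else 0) * chi n := by
    have := sum_nth hinf (x + 1) chi
    rw [hS1]
    unfold gg
    exact this
  rw [← hMsum] at hM
  rw [← hS1sum] at h1
  have hMpos : 1 ≤ M := by
    have : 0 < (M : ℝ) := by
      refine lt_of_lt_of_le ?_ hM
      apply mul_pos _ hWpos
      linarith
    exact_mod_cast this
  have hS2' : |S2| ≤ 2 * ε * W + 1 := by
    obtain ⟨m, hm⟩ : ∃ m, M = m + 1 := ⟨M - 1, by omega⟩
    have e := (run_nth P (x + 1)).1
    rw [← hMdef, hm, Nat.add_sub_cancel] at e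
    rw [e] at h2
    rw [hS2, hm, Finset.sum_range_succ]
    refine (abs_add_le _ _).trans ?_
    have : |gg P m * gg P (m + 1)| = 1 := by
      rw [abs_mul, gg_abs, gg_abs, one_mul]
    linarith
  -- the shifted sum
  have hshift : ∑ i ∈ range M, gg P (i + 1) = S1 + gg P M - gg P 0 := by
    have e1 : ∑ i ∈ range (M + 1), gg P i = S1 + gg P M := Finset.sum_range_succ _ _
    have e2 : ∑ i ∈ range (M + 1), gg P i = ∑ i ∈ range M, gg P (i + 1) + gg P 0 :=
      Finset.sum_range_succ' _ _
    linarith
  have hgM := gg_abs P M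
  have hg0 := gg_abs P 0
  set εa : ℝ := if a = 1 then (1 : ℝ) else -1 with hεa
  set εb : ℝ := if b = 1 then (1 : ℝ) else -1 with hεb
  have hεa1 : |εa| = 1 := by
    rw [hεa]
    split_ifs <;> simp
  have hεb1 : |εb| = 1 := by
    rw [hεb]
    split_ifs <;> simp
  have hc1 : (count₁ P x a : ℝ) = (M + εa * S1) / 2 := by
    rw [count₁_eq hinf hodd x ha, ← Finset.sum_div, Finset.sum_add_distrib, ← Finset.mul_sum]
    simp [hMdef, hS1, hεa]
  have hc2 : (count₂ P x a b : ℝ)
      = (M + εa * S1 + εb * (S1 + gg P M - gg P 0) + εa * εb * S2) / 4 := by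
    rw [count₂_eq hinf hodd x ha hb]
    have e1 : ∀ i, ((1 + εa * gg P i) / 2) * ((1 + εb * gg P (i + 1)) / 2)
        = (1 + εa * gg P i + εb * gg P (i + 1) + εa * εb * (gg P i * gg P (i + 1))) / 4 := by
      intro i
      ring
    simp_rw [← hεa, ← hεb, e1]
    rw [← Finset.sum_div, Finset.sum_add_distrib, Finset.sum_add_distrib,
      Finset.sum_add_distrib, ← Finset.mul_sum, ← Finset.mul_sum, ← Finset.mul_sum, hshift]
    simp [hMdef, hS1, hS2]
  have b1 : |εa * S1| ≤ 2 * ε * W := by rw [abs_mul, hεa1, one_mul]; exact h1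
  have b2 : |εb * (S1 + gg P M - gg P 0)| ≤ 2 * ε * W + 2 := by
    rw [abs_mul, hεb1, one_mul]
    have e1 : |S1 + gg P M - gg P 0| ≤ |S1| + |gg P M| + |gg P 0| := by
      calc |S1 + gg P M - gg P 0| ≤ |S1 + gg P M| + |gg P 0| := abs_sub _ _
        _ ≤ _ := add_le_add (abs_add_le _ _) le_rfl
    rw [hgM, hg0] at e1
    linarith
  have b3 : |εa * εb * S2| ≤ 2 * ε * W + 1 := by
    rw [abs_mul, abs_mul, hεa1, hεb1, one_mul, one_mul]
    exact hS2'
  have b1' := abs_le.1 b1
  have b2' := abs_le.1 b2
  have b3' := abs_le.1 b3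
  have hc1ge : W / 4 ≤ (count₁ P x a : ℝ) := by
    rw [hc1]
    have : (1 - 4 * ε) * W ≥ (1 / 2) * W := by
      apply mul_le_mul_of_nonneg_right _ hWpos.le
      linarith
    linarith [b1'.1]
  have hc1pos : 0 < (count₁ P x a : ℝ) := by linarith
  unfold delta
  have e5 : (count₂ P x a b : ℝ) / (count₁ P x a : ℝ) - 1 / 2
      = ((count₂ P x a b : ℝ) - (count₁ P x a : ℝ) / 2)
        / (count₁ P x a : ℝ) := by
    field_simp
  rw [e5, abs_div, abs_of_pos hc1pos, div_le_iff₀ hc1pos]
  have e6 : |(count₂ P x a b : ℝ) - (count₁ P x a : ℝ) / 2|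
      ≤ (2 * ε * W + 2 + (2 * ε * W + 1)) / 4 := by
    rw [hc1, hc2, abs_le]
    constructor <;> linarith [b2'.1, b2'.2, b3'.1, b3'.2]
  refine e6.trans ?_
  have e7 : 20 * ε * (W / 4) ≤ 20 * ε * (count₁ P x a : ℝ) :=
    mul_le_mul_of_nonneg_left hc1ge (by linarith)
  linarith

end Pool.Agent.Helper88.BFT
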